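import Pool.Agent.Y303.SK.Stm
import Pool.Agent.Y665.NSK.Lim

/-!
Job SK-LIM (project SK of helper303): limits of the solutions of the truncated systems along an
ultrafilter (adaptation of helper665's `Pool/Agent/Y665/NSK/Lim.lean`).
-/

open Set Filter Topology MeasureTheory

set_option autoImplicit false

namespace Pool.Agent.Y914.SK

open Pool.Agent.Y5.D (Ix qd vf3 Init)
open Pool.Agent.Y6.N
open Pool.Agent.Y6.K (Kz lv)
open Pool.Agent.Y665.NSK (dom dom_nonneg dom_summable Ctl wq wq_summable wq_mono wq_tendsto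
  qd_diff L_two Bd Bd_nonneg Bd_summable sw kc Kz_eq G lev_fin ts_summable ts_one)
open Pool.Agent.Y303.SK (KD S_LIM3)

/-! ### Linear terms on vectors with a summable bound -/

section linear

variable {I : Type} {D : I → I → ℝ} {Bd Lc : I → ℝ}

lemma ld_summable {i : I} {E : ℝ} (hE : ∀ b, |D i b| ≤ E) (hB : ∀ a, 0 ≤ Bd a)
    (hs : Summable Bd) : Summable (fun b => |D i b| * Bd b) :=
  Summable.of_nonneg_of_le (fun b => mul_nonneg (abs_nonneg _) (hB b))
    (fun b => mul_le_mul_of_nonneg_right (hE b) (hB b)) (hs.mul_left E)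

lemma ctl_term {x : I → ℝ} (hx : Ctl Bd x) (i b : I) : |D i b * x b| ≤ |D i b| * Bd b := by
  rw [abs_mul]
  exact mul_le_mul_of_nonneg_left (hx.2 b) (abs_nonneg _)

lemma ctl_summable {i : I} {E : ℝ} (hE : ∀ b, |D i b| ≤ E) (hB : ∀ a, 0 ≤ Bd a)
    (hs : Summable Bd) {x : I → ℝ} (hx : Ctl Bd x) : Summable (fun b => D i b * x b) :=
  Summable.of_norm_bounded (ld_summable hE hB hs) fun b => ctl_term hx i b

/-- the modulus of continuity of the linear term -/
noncomputable def wl (D : I → I → ℝ) (Bd Lc : I → ℝ) (i : I) (δ : ℝ) : ℝ :=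
  ∑' b : I, min (2 * (|D i b| * Bd b)) (|D i b| * Lc b * δ)

lemma wl_summable {i : I} {E : ℝ} (hE : ∀ b, |D i b| ≤ E) (hB : ∀ a, 0 ≤ Bd a)
    (hs : Summable Bd) (hL : ∀ a, 0 ≤ Lc a) {δ : ℝ} (hδ : 0 ≤ δ) :
    Summable (fun b : I => min (2 * (|D i b| * Bd b)) (|D i b| * Lc b * δ)) := by
  refine Summable.of_nonneg_of_le (fun b => ?_) (fun b => min_le_left _ _)
    ((ld_summable hE hB hs).mul_left 2)
  have h1 := hB b
  have h2 := hL b
  exact le_min (by positivity) (by positivity)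

lemma wl_mono {i : I} {E : ℝ} (hE : ∀ b, |D i b| ≤ E) (hB : ∀ a, 0 ≤ Bd a)
    (hs : Summable Bd) (hL : ∀ a, 0 ≤ Lc a) {δ δ' : ℝ} (hδ : 0 ≤ δ) (h : δ ≤ δ') :
    wl D Bd Lc i δ ≤ wl D Bd Lc i δ' := by
  refine Summable.tsum_le_tsum (fun b => ?_) (wl_summable hE hB hs hL hδ)
    (wl_summable hE hB hs hL (hδ.trans h))
  have h2 := hL b
  exact min_le_min le_rfl (mul_le_mul_of_nonneg_left h (by positivity))

lemma wl_tendsto {i : I} {E : ℝ} (hE : ∀ b, |D i b| ≤ E) (hB : ∀ a, 0 ≤ Bd a)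
    (hs : Summable Bd) (hL : ∀ a, 0 ≤ Lc a) :
    Tendsto (wl D Bd Lc i) (𝓝[≥] 0) (𝓝 0) := by
  have h := tendsto_tsum_of_dominated_convergence (𝓕 := 𝓝[≥] (0 : ℝ))
    (f := fun (δ : ℝ) (b : I) => min (2 * (|D i b| * Bd b)) (|D i b| * Lc b * δ))
    (g := fun _ => 0) (bound := fun b => 2 * (|D i b| * Bd b))
    ((ld_summable hE hB hs).mul_left 2) ?_ ?_
  · rw [tsum_zero] at h
    exact h
  · intro b
    have h1 := hB b
    have hc : Continuous (fun δ : ℝ => min (2 * (|D i b| * Bd b)) (|D i b| * Lc b * δ)) := by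
      fun_prop
    have h2 := (hc.tendsto 0).mono_left (nhdsWithin_le_nhds (s := Ici 0))
    rw [mul_zero, min_eq_right (by positivity)] at h2
    exact h2
  · filter_upwards [self_mem_nhdsWithin] with δ hδ b
    have hδ' : 0 ≤ δ := hδ
    have h1 := hB b
    have h2 := hL b
    rw [Real.norm_eq_abs, abs_of_nonneg (le_min (by positivity) (by positivity))]
    exact min_le_left _ _

lemma lin_diff {i : I} {E : ℝ} (hE : ∀ b, |D i b| ≤ E) (hB : ∀ a, 0 ≤ Bd a)
    (hs : Summable Bd) (hL : ∀ a, 0 ≤ Lc a) {x y : I → ℝ} (hx : Ctl Bd x) (hy : Ctl Bd y)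
    {δ : ℝ} (hδ : 0 ≤ δ) (hd : ∀ a, |x a - y a| ≤ Lc a * δ) :
    |lin D x i - lin D y i| ≤ wl D Bd Lc i δ := by
  unfold lin
  rw [← (ctl_summable hE hB hs hx).tsum_sub (ctl_summable hE hB hs hy)]
  refine tsum_of_norm_bounded (f := fun b : I => D i b * x b - D i b * y b)
    (wl_summable hE hB hs hL hδ).hasSum fun b => ?_
  rw [Real.norm_eq_abs]
  refine le_min ?_ ?_
  · refine (abs_sub _ _).trans ?_
    have h1 := ctl_term (D := D) hx i b
    have h2 := ctl_term (D := D) hy i b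
    linarith
  · rw [← mul_sub, abs_mul, mul_assoc]
    exact mul_le_mul_of_nonneg_left (hd b) (abs_nonneg _)

end linear

variable {J : Type} {g o : J → ℕ} {σ : J → J} {τ : J → ℝ} {lm L C M ℓ ρ : ℕ → ℝ}
  {B : ℕ → ℕ → ℝ} {R E : Ix J → ℝ} {D : Ix J → Ix J → ℝ} {c : Ix J → Ix J → Ix J → ℝ}
  {Θ : ℝ} {S : ℕ → ℝ}

/-! ### Bounds of the coefficients -/

lemma size (hK : KD g L C ℓ ρ B R E D c) (i a b : Ix J) : |c i a b| ≤ R i := by
  classical
  have h := hK.bil i {a, b} (fun x => if x = a then 1 else 0) (fun x => if x = b then 1 else 0)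
  have e1 : ∑ x ∈ ({a, b} : Finset (Ix J)), ∑ y ∈ ({a, b} : Finset (Ix J)),
      c i x y * (if x = a then (1 : ℝ) else 0) * (if y = b then (1 : ℝ) else 0) = c i a b := by
    rw [Finset.sum_eq_single a, Finset.sum_eq_single b]
    · simp
    · intro y _ hy
      simp [hy]
    · intro h
      simp at h
    · intro x _ hx
      simp [hx]
    · intro h
      simp at h
  have e2 : ∀ d : Ix J, d ∈ ({a, b} : Finset (Ix J)) →
      √(∑ x ∈ ({a, b} : Finset (Ix J)), (if x = d then (1 : ℝ) else 0) ^ 2) = 1 := by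
    intro d hd
    rw [Finset.sum_eq_single d]
    · simp
    · intro x _ hx
      simp [hx]
    · intro h
      exact absurd hd h
  rw [e1, e2 a (by simp), e2 b (by simp), mul_one, mul_one] at h
  exact h

lemma dsize (hK : KD g L C ℓ ρ B R E D c) (i b : Ix J) : |D i b| ≤ E i := by
  have h := hK.dlin i {b} (fun _ => 1)
  simpa using h

lemma R0 (hK : KD g L C ℓ ρ B R E D c) (i : Ix J) : 0 ≤ R i :=
  (abs_nonneg _).trans (size hK i i i)

lemma E0 (hK : KD g L C ℓ ρ B R E D c) (i : Ix J) : 0 ≤ E i :=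
  (abs_nonneg _).trans (dsize hK i i)

lemma qd_le (hK : KD g L C ℓ ρ B R E D c) {s : Finset (Ix J)} {x : Ix J → ℝ}
    (hx : ∀ a, a ∉ s → x a = 0) (h : ∑ a ∈ s, x a ^ 2 ≤ 1) (i : Ix J) : |qd c x i| ≤ R i := by
  have e : qd c x i = ∑ a ∈ s, ∑ b ∈ s, c i a b * x a * x b := by
    unfold qd
    rw [← Finset.sum_product']
    refine tsum_eq_sum fun p hp => ?_
    rw [Finset.mem_product, not_and_or] at hp
    rcases hp with hp | hp
    · rw [hx _ hp]
      ring
    · rw [hx _ hp]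
      ring
  rw [e]
  refine (hK.bil i s x x).trans ?_
  have h1 : √(∑ a ∈ s, x a ^ 2) ≤ 1 := Real.sqrt_le_one.2 h
  have h2 := Real.sqrt_nonneg (∑ a ∈ s, x a ^ 2)
  have h3 := R0 hK i
  have h4 : √(∑ a ∈ s, x a ^ 2) * √(∑ a ∈ s, x a ^ 2) ≤ 1 := by nlinarith
  nlinarith

lemma lin_le (hK : KD g L C ℓ ρ B R E D c) {s : Finset (Ix J)} {x : Ix J → ℝ}
    (hx : ∀ a, a ∉ s → x a = 0) (h : ∑ a ∈ s, x a ^ 2 ≤ 1) (i : Ix J) : |lin D x i| ≤ E i := by
  have e : lin D x i = ∑ b ∈ s, D i b * x b := by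
    unfold lin
    refine tsum_eq_sum fun b hb => ?_
    rw [hx _ hb, mul_zero]
  rw [e]
  refine (hK.dlin i s x).trans ?_
  have h1 : √(∑ a ∈ s, x a ^ 2) ≤ 1 := Real.sqrt_le_one.2 h
  have h3 := E0 hK i
  nlinarith

/-- the Lipschitz constant -/
noncomputable def Lc (R E : Ix J → ℝ) (S : ℕ → ℝ) (o : J → ℕ) (τ : J → ℝ) (i : Ix J) : ℝ :=
  |kc S o τ i| + E i + R i

lemma Lc_nonneg (hK : KD g L C ℓ ρ B R E D c) (i : Ix J) : 0 ≤ Lc R E S o τ i := by
  have h1 := R0 hK i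
  have h2 := E0 hK i
  have h3 := abs_nonneg (kc S o τ i)
  unfold Lc
  linarith

lemma G_le (hK : KD g L C ℓ ρ B R E D c) {s : Finset (Ix J)} {x : Ix J → ℝ}
    (h1 : ∀ a, |x a| ≤ 1) (hx : ∀ a, a ∉ s → x a = 0) (h : ∑ a ∈ s, x a ^ 2 ≤ 1) (i : Ix J) :
    |G S o σ τ D c x i| ≤ Lc R E S o τ i := by
  unfold G Lc
  have e1 : |Kz S o σ τ x i| ≤ |kc S o τ i| := by
    rw [Kz_eq, abs_mul]
    have := h1 (sw σ i)
    have h0 := abs_nonneg (kc S o τ i)
    nlinarith
  have e2 := lin_le hK hx h i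
  have e3 := qd_le hK hx h i
  calc |Kz S o σ τ x i - lin D x i + qd c x i|
      ≤ |Kz S o σ τ x i - lin D x i| + |qd c x i| := abs_add_le _ _
    _ ≤ (|Kz S o σ τ x i| + |lin D x i|) + |qd c x i| := by
        have := abs_sub (Kz S o σ τ x i) (lin D x i)
        linarith
    _ ≤ _ := by linarith

/-- the modulus of continuity of the vector field -/
noncomputable def wG (R E : Ix J → ℝ) (S : ℕ → ℝ) (o : J → ℕ) (σ : J → J) (τ : J → ℝ)
    (D : Ix J → Ix J → ℝ) (c : Ix J → Ix J → Ix J → ℝ) (Bd : Ix J → ℝ) (i : Ix J) (δ : ℝ) : ℝ :=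
  |kc S o τ i| * Lc R E S o τ (sw σ i) * δ + wl D Bd (Lc R E S o τ) i δ +
    wq c Bd (Lc R E S o τ) i δ

lemma wG_mono (hK : KD g L C ℓ ρ B R E D c) {Bd : Ix J → ℝ}
    (hB : ∀ a, 0 ≤ Bd a) (hs : Summable Bd) (i : Ix J) {δ δ' : ℝ} (hδ : 0 ≤ δ) (h : δ ≤ δ') :
    wG R E S o σ τ D c Bd i δ ≤ wG R E S o σ τ D c Bd i δ' :=
  add_le_add (add_le_add (mul_le_mul_of_nonneg_left h
    (mul_nonneg (abs_nonneg _) (Lc_nonneg hK _)))
    (wl_mono (fun b => dsize hK i b) hB hs (Lc_nonneg hK) hδ h))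
    (wq_mono (fun a b => size hK i a b) hB hs (Lc_nonneg hK) hδ h)

lemma wG_tendsto (hK : KD g L C ℓ ρ B R E D c) {Bd : Ix J → ℝ}
    (hB : ∀ a, 0 ≤ Bd a) (hs : Summable Bd) (i : Ix J) :
    Tendsto (wG R E S o σ τ D c Bd i) (𝓝[≥] 0) (𝓝 0) := by
  have hc : Continuous (fun δ : ℝ => |kc S o τ i| * Lc R E S o τ (sw σ i) * δ) := by fun_prop
  have h2 := (hc.tendsto 0).mono_left (nhdsWithin_le_nhds (s := Ici 0))
  have h3 := (h2.add (wl_tendsto (D := D) (Lc := Lc R E S o τ) (fun b => dsize hK i b) hB hs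
    (Lc_nonneg hK))).add (wq_tendsto (c := c) (Lc := Lc R E S o τ) (fun a b => size hK i a b) hB
      hs (Lc_nonneg hK))
  rw [mul_zero, add_zero, add_zero] at h3
  exact h3

lemma G_diff (hK : KD g L C ℓ ρ B R E D c) {Bd : Ix J → ℝ}
    (hB : ∀ a, 0 ≤ Bd a) (hs : Summable Bd) {x y : Ix J → ℝ} (hx : Ctl Bd x) (hy : Ctl Bd y)
    {δ : ℝ} (hδ : 0 ≤ δ) (hd : ∀ a, |x a - y a| ≤ Lc R E S o τ a * δ) (i : Ix J) :
    |G S o σ τ D c x i - G S o σ τ D c y i| ≤ wG R E S o σ τ D c Bd i δ := by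
  unfold G wG
  have h1 : Kz S o σ τ x i - lin D x i + qd c x i - (Kz S o σ τ y i - lin D y i + qd c y i) =
      kc S o τ i * (x (sw σ i) - y (sw σ i)) - (lin D x i - lin D y i) +
        (qd c x i - qd c y i) := by
    rw [Kz_eq, Kz_eq]
    ring
  rw [h1]
  refine (abs_add_le _ _).trans (add_le_add ?_
    (qd_diff (fun a b => size hK i a b) hB hs (Lc_nonneg hK) hx hy hδ hd))
  have e1 : |kc S o τ i * (x (sw σ i) - y (sw σ i))| ≤
      |kc S o τ i| * Lc R E S o τ (sw σ i) * δ := by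
    rw [abs_mul, mul_assoc]
    exact mul_le_mul_of_nonneg_left (hd _) (abs_nonneg _)
  have e2 := lin_diff (fun b => dsize hK i b) hB hs (Lc_nonneg hK) hx hy hδ hd
  have e3 := abs_sub (kc S o τ i * (x (sw σ i) - y (sw σ i))) (lin D x i - lin D y i)
  linarith

/-! ### The truncated solutions -/

lemma ts_lip (hK : KD g L C ℓ ρ B R E D c) (hR : Rot o σ τ)
    {N : ℕ} {z : Ix J → ℝ → ℝ} (hz : TSol Θ S o σ τ D c N z) (a : Ix J) {s t : ℝ}
    (hs' : s ∈ Icc (0 : ℝ) Θ) (ht : t ∈ Icc (0 : ℝ) Θ) :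
    |z a t - z a s| ≤ Lc R E S o τ a * |t - s| := by
  by_cases ha : lv o a ≤ N
  · refine (convex_Icc (0 : ℝ) Θ).norm_image_sub_le_of_norm_hasDerivWithin_le
      (fun r hr => hz.deriv a ha r hr)
      (fun r hr => ?_) hs' ht
    refine G_le (S := S) (o := o) (σ := σ) (τ := τ) (s := (lev_fin hR N).toFinset) hK
      (ts_one hR hz hr) ?_ ?_ a
    · intro b hb
      rw [Set.Finite.mem_toFinset, Set.mem_ofPred_eq, not_le] at hb
      exact hz.zero b hb r
    · exact ((ts_summable hR hz r).sum_le_tsum _ fun b _ => sq_nonneg _).trans (hz.energy r hr)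
  · rw [not_le] at ha
    rw [hz.zero a ha, hz.zero a ha, sub_zero, abs_zero]
    exact mul_nonneg (Lc_nonneg hK a) (abs_nonneg _)

lemma ts_taylor (hK : KD g L C ℓ ρ B R E D c)
    (hR : Rot o σ τ) {Bd : Ix J → ℝ} (hB : ∀ a, 0 ≤ Bd a) (hs : Summable Bd)
    {N : ℕ} {z : Ix J → ℝ → ℝ} (hz : TSol Θ S o σ τ D c N z) {θ : ℝ} (hθ : θ ≤ Θ)
    (hb : ∀ t ∈ Icc (0 : ℝ) θ, ∀ a, |z a t| ≤ Bd a) (i : Ix J)
    (hi : lv o i ≤ N) {s t : ℝ} (hs' : s ∈ Icc (0 : ℝ) θ) (ht : t ∈ Icc (0 : ℝ) θ) :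
    |z i t - z i s - (t - s) * G S o σ τ D c (fun a => z a s) i|
      ≤ wG R E S o σ τ D c Bd i |t - s| * |t - s| := by
  have hsub : uIcc s t ⊆ Icc (0 : ℝ) θ := uIcc_subset_Icc hs' ht
  have hsub2 : Icc (0 : ℝ) θ ⊆ Icc (0 : ℝ) Θ := Icc_subset_Icc_right hθ
  have hctl : ∀ r ∈ Icc (0 : ℝ) θ, Ctl Bd (fun a => z a r) := fun r hr =>
    ⟨ts_one hR hz (hsub2 hr), hb r hr⟩
  set q := G S o σ τ D c (fun a => z a s) i with hq
  have h1 : ∀ r ∈ uIcc s t, HasDerivWithinAt (fun r => z i r - r * q)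
      (G S o σ τ D c (fun a => z a r) i - 1 * q) (uIcc s t) r := by
    intro r hr
    exact ((hz.deriv i hi r (hsub2 (hsub hr))).mono (hsub.trans hsub2)).sub
      ((hasDerivWithinAt_id r _).mul_const q)
  have h2 : ∀ r ∈ uIcc s t, ‖G S o σ τ D c (fun a => z a r) i - 1 * q‖ ≤
      wG R E S o σ τ D c Bd i |t - s| := by
    intro r hr
    rw [one_mul, Real.norm_eq_abs]
    refine (G_diff hK hB hs (hctl r (hsub hr)) (hctl s hs')
      (abs_nonneg (r - s)) (fun a => ts_lip hK hR hz a (hsub2 hs')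
        (hsub2 (hsub hr))) i).trans ?_
    exact wG_mono hK hB hs i (abs_nonneg _) (abs_sub_left_of_mem_uIcc hr)
  have h3 := (convex_uIcc s t).norm_image_sub_le_of_norm_hasDerivWithin_le h1 h2
    left_mem_uIcc right_mem_uIcc
  have h4 : z i t - t * q - (z i s - s * q) = z i t - z i s - (t - s) * q := by ring
  rw [h4] at h3
  exact h3

/-! ### The limit -/

theorem t_LIM3 : S_LIM3 := by
  intro J g o σ τ lm L C M ℓ ρ B R E D c Θ S b hK hSeq hR hΘ hb0 hbs Z hZ hZb U hU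
  have hone : ∀ N, ∀ t ∈ Icc (0 : ℝ) Θ, ∀ a, |Z N a t| ≤ 1 := fun N t ht a =>
    ts_one hR (hZ N) ht a
  have hex : ∀ i : Ix J, ∀ t : ℝ, ∃ x : ℝ, t ∈ Icc (0 : ℝ) Θ →
      Tendsto (fun N => Z N i t) U (𝓝 x) := by
    intro i t
    by_cases ht : t ∈ Icc (0 : ℝ) Θ
    · have hc : IsCompact (Icc (-1 : ℝ) 1) := isCompact_Icc
      have hm : (U.map (fun N => Z N i t) : Filter ℝ) ≤ 𝓟 (Icc (-1 : ℝ) 1) := by
        rw [le_principal_iff]
        exact Filter.mem_map.2 (Filter.univ_mem' fun N => abs_le.1 (hone N t ht i))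
      obtain ⟨x, _, hx⟩ := hc.ultrafilter_le_nhds (U.map (fun N => Z N i t)) hm
      exact ⟨x, fun _ => hx⟩
    · exact ⟨0, fun h => absurd h ht⟩
  choose z hz using hex
  have hlim : ∀ i, ∀ t ∈ Icc (0 : ℝ) Θ, Tendsto (fun N => Z N i t) U (𝓝 (z i t)) :=
    fun i t ht => hz i t ht
  have hge : ∀ i, ∀ᶠ N in (U : Filter ℕ), lv o i ≤ N := fun i => hU (eventually_ge_atTop _)
  have h0 : (0 : ℝ) ∈ Icc (0 : ℝ) Θ := ⟨le_rfl, hΘ.le⟩
  refine ⟨z, hlim, ⟨?_, fun n => ?_, fun w => ?_⟩, ?_, ?_, ?_⟩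
  · exact tendsto_nhds_unique (hlim _ 0 h0)
      (tendsto_const_nhds.congr fun N => ((hZ N).init.1).symm)
  · exact tendsto_nhds_unique (hlim _ 0 h0)
      (tendsto_const_nhds.congr fun N => ((hZ N).init.2.1 n).symm)
  · exact tendsto_nhds_unique (hlim _ 0 h0)
      (tendsto_const_nhds.congr fun N => ((hZ N).init.2.2 w).symm)
  · intro t ht
    have h1 : ∀ F : Finset (Ix J), ∑ a ∈ F, z a t ^ 2 ≤ 1 := by
      intro F
      have h2 : Tendsto (fun N => ∑ a ∈ F, Z N a t ^ 2) U (𝓝 (∑ a ∈ F, z a t ^ 2)) :=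
        tendsto_finsetSum _ fun a _ => (hlim a t ht).pow 2
      refine le_of_tendsto h2 (Eventually.of_forall fun N => ?_)
      exact ((ts_summable hR (hZ N) t).sum_le_tsum F fun a _ => sq_nonneg _).trans
        ((hZ N).energy t ht)
    exact ⟨summable_of_sum_le (fun a => sq_nonneg _) h1,
      Real.tsum_le_of_sum_le (fun a => sq_nonneg _) h1⟩
  · intro j t ht
    exact le_of_tendsto (hlim (Sum.inr j) t ht).abs
      (Eventually.of_forall fun N => hZb N j t ht)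
  · rintro θ hθ0 hθ ⟨X, hX⟩ i s hs'
    have hsub : Icc (0 : ℝ) θ ⊆ Icc (0 : ℝ) Θ := Icc_subset_Icc_right hθ
    have hB := Bd_nonneg (b := b) hSeq hb0 X
    have hBs := Bd_summable hSeq hbs X
    -- the bound holds for almost all `N`
    have hbd : ∀ᶠ N in (U : Filter ℕ), ∀ t ∈ Icc (0 : ℝ) θ, ∀ a, |Z N a t| ≤ Bd L b X a := by
      filter_upwards [hX] with N hN t ht a
      cases a with
      | inl n =>
        have h1 := L_two hSeq n
        have h2 : (0 : ℝ) < 2 ^ n := by positivity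
        have h3 : 0 < L n := by linarith
        show |Z N (Sum.inl n) t| ≤ |X| / L n
        rw [le_div_iff₀ h3, mul_comm]
        exact (hN t ht n).trans (le_abs_self X)
      | inr j => exact hZb N j t (hsub ht)
    have hq : ∀ i, ∀ t ∈ Icc (0 : ℝ) θ,
        Tendsto (fun N => G S o σ τ D c (fun a => Z N a t) i) U
          (𝓝 (G S o σ τ D c (fun a => z a t) i)) := by
      intro i t ht
      unfold G
      refine Tendsto.add (Tendsto.sub ?_ ?_) ?_
      · simp_rw [Kz_eq]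
        exact (hlim _ t (hsub ht)).const_mul _
      · unfold lin
        refine tendsto_tsum_of_dominated_convergence
          (ld_summable (D := D) (i := i) (fun b => dsize hK i b) hB hBs) ?_ ?_
        · intro p
          exact (hlim p t (hsub ht)).const_mul _
        · filter_upwards [hbd] with N hN p
          have hctl : Ctl (Bd L b X) (fun a => Z N a t) := ⟨hone N t (hsub ht), hN t ht⟩
          exact ctl_term hctl i p
      · unfold qd
        refine tendsto_tsum_of_dominated_convergence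
          (dom_summable (c := c) (i := i) (fun a b => size hK i a b) hB hBs) ?_ ?_
        · intro p
          exact ((hlim p.1 t (hsub ht)).const_mul _).mul (hlim p.2 t (hsub ht))
        · filter_upwards [hbd] with N hN p
          have hctl : Ctl (Bd L b X) (fun a => Z N a t) := ⟨hone N t (hsub ht), hN t ht⟩
          exact hctl.term hctl i p
    have htay : ∀ i, ∀ s ∈ Icc (0 : ℝ) θ, ∀ t ∈ Icc (0 : ℝ) θ,
        |z i t - z i s - (t - s) * G S o σ τ D c (fun a => z a s) i|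
          ≤ wG R E S o σ τ D c (Bd L b X) i |t - s| * |t - s| := by
      intro i s hs' t ht
      have h1 : Tendsto (fun N => |Z N i t - Z N i s -
          (t - s) * G S o σ τ D c (fun a => Z N a s) i|)
          U (𝓝 |z i t - z i s - (t - s) * G S o σ τ D c (fun a => z a s) i|) :=
        (((hlim i t (hsub ht)).sub (hlim i s (hsub hs'))).sub ((hq i s hs').const_mul _)).abs
      refine le_of_tendsto h1 ?_
      filter_upwards [hge i, hbd] with N hN hNb
      exact ts_taylor hK hR hB hBs (hZ N) hθ hNb i hN hs' ht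
    show HasDerivWithinAt (z i) (G S o σ τ D c (fun a => z a s) i) (Icc 0 θ) s
    rw [hasDerivWithinAt_iff_isLittleO, Asymptotics.isLittleO_iff]
    intro ε hε
    have hw := wG_tendsto (S := S) (o := o) (σ := σ) (τ := τ) hK hB hBs i
    have h1 : ∀ᶠ δ in 𝓝[≥] (0 : ℝ), wG R E S o σ τ D c (Bd L b X) i δ < ε :=
      hw.eventually_lt_const hε
    have h2 : Tendsto (fun t : ℝ => |t - s|) (𝓝[Icc 0 θ] s) (𝓝[≥] 0) := by
      refine tendsto_nhdsWithin_iff.2 ⟨?_, Eventually.of_forall fun t =>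
        Set.mem_Ici.2 (abs_nonneg _)⟩
      have hc : Continuous (fun t : ℝ => |t - s|) := by fun_prop
      have := hc.tendsto s
      rw [sub_self, abs_zero] at this
      exact this.mono_left nhdsWithin_le_nhds
    filter_upwards [h2.eventually h1, self_mem_nhdsWithin] with t ht ht'
    rw [Real.norm_eq_abs, Real.norm_eq_abs, smul_eq_mul]
    exact (htay i s hs' t ht').trans (mul_le_mul_of_nonneg_right ht.le (abs_nonneg _))

end Pool.Agent.Y914.SK
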